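import Pool.Agent.ANO2.EqIdx.Basic
import Pool.Agent.ANO.Idx.Crd

/-!
# Equivariant index: the chart of `ℍ^r × ℝ^k`
-/

set_option autoImplicit false

open Set Filter Topology
open Pool.Agent.ANO

namespace Pool.Agent.ANO2.EqIdx

/-- The standard chart of `ℍ^r × ℝ^k`. -/
noncomputable def chartX (r k : ℕ) : Chart (ANO.X r k) (ANO.E r k) where
  toE := toE
  ofE := ofE
  left_inv := Idx.ofE_toE
  isOpen := by
    rw [Idx.range_toE]
    exact Idx.isOpen_dom
  cont := Idx.continuous_toE
  contOf := by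
    rw [Idx.range_toE]
    exact Idx.continuousOn_ofE
  conv := by
    rw [Idx.range_toE]
    exact Idx.convex_dom
  ball a b t ht := by
    refine Idx.dist_le_of_mid ht ?_
    have h : (1 - t) • toE a + t • toE b ∈ dom r k := by
      have h1 : (0 : ℝ) ≤ 1 - t := by linarith [ht.2]
      exact Idx.convex_dom (Idx.toE_mem a) (Idx.toE_mem b) h1 ht.1 (by ring)
    rw [Idx.toE_ofE h, sub_smul, one_smul, smul_sub]
    abel

@[simp] theorem chartX_toE (r k : ℕ) (p : ANO.X r k) : (chartX r k).toE p = toE p := rfl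

@[simp] theorem chartX_ofE (r k : ℕ) (x : ANO.E r k) : (chartX r k).ofE x = ofE x := rfl

@[simp] theorem chartX_loc (r k : ℕ) (G : ANO.X r k → ANO.X r k) :
    (chartX r k).loc G = loc G := rfl

theorem chartX_dom (r k : ℕ) : (chartX r k).dom = dom r k := Idx.range_toE

end Pool.Agent.ANO2.EqIdx
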