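import Pool.Agent.ANO2.EqIdx.Ball
import Pool.Agent.ANO2.EqIdx.Fin

/-!
# Equivariant index: neighbourhoods of the fixed points of the comparison map (package EQ-LOC)

Let `fixOrb Z G₀` be finite, `G₀` of class `C¹` near its fixed points, which are nondegenerate.
Choose
a representative `w i` of each orbit (`ι = fixOrb Z G₀` as a type). For small `r > 0` the sets
`N i = closedBall (w i) r` satisfy: the translates are disjoint (`Action.exists_small`), the
saturations are disjoint (`Action.exists_disjoint`), `G₀` is `C¹` near `C.toE '' N i`, `w i` is the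
only
fixed point of `G₀` in `N i` (nondegenerate zeros are isolated: `fderiv` invertible, e.g.
`HasStrictFDerivAt.eventually_ne`-type lemmas or the inverse function theorem; see
`Pool.Agent.SmoothDegree.exists_local_homeo`), and `dist x (G₀ x) ≤ 1` on `N i`.
-/

set_option autoImplicit false
set_option linter.unusedSectionVars false

open Set Filter Topology Metric
open Pool.Agent.SmoothDegree Pool.Agent.ANO.Idx

namespace Pool.Agent.ANO2.EqIdx

variable {X E : Type} [MetricSpace X] [ProperSpace X] [NormedAddCommGroup E] [NormedSpace ℝ E]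
  [FiniteDimensional ℝ E]
variable {C : Chart X E} {Z : Type} [Group Z] [MulAction Z X]

private theorem ev_Loc {P : ℝ → Prop} {ρ : ℝ} (hρ : 0 < ρ) (h : ∀ r, r ≤ ρ → P r) :
    ∀ᶠ r in 𝓝[>] (0 : ℝ), P r := by
  filter_upwards [eventually_nhdsWithin_of_eventually_nhds (gt_mem_nhds hρ)] with r hr
  exact h r hr.le

/-- zeros near a nondegenerate point are isolated -/
private theorem isolated_Loc {f : E → E} {x : E} {V : Set E} (hV : V ∈ 𝓝 x)
    (hf : ContDiffOn ℝ 1 f V) (hd : (fderiv ℝ f x).det ≠ 0) :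
    ∀ᶠ y in 𝓝 x, f y = 0 → y = x := by
  have h1 : HasFDerivAt f (fderiv ℝ f x) x :=
    ((hf.contDiffAt hV).differentiableAt one_ne_zero).hasFDerivAt
  have hker : LinearMap.ker (fderiv ℝ f x : E →ₗ[ℝ] E) = ⊥ := by
    rw [LinearMap.ker_eq_bot']
    exact inj_of_det_ne_zero _ hd
  obtain ⟨K, -, hK⟩ := LinearMap.exists_antilipschitzWith (fderiv ℝ f x : E →ₗ[ℝ] E) hker
  have h3 := h1.eventually_ne (c := 0) ⟨K, hK⟩
  rw [eventually_nhdsWithin_iff] at h3
  filter_upwards [h3] with y hy hy0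
  by_contra hne
  exact hy hne hy0

theorem exists_nhds (hZ : Action C Z) {G₀ : X → X} (hG₀ : Continuous G₀)
    (he : ∀ (z : Z) (x : X), G₀ (z • x) = z • G₀ x) (hfin : (fixOrb Z G₀).Finite)
    (hloc : ∀ w, G₀ w = w → (∃ V ∈ 𝓝 (C.toE w), ContDiffOn ℝ 1 (C.loc G₀) V) ∧
      (fderiv ℝ (C.disp G₀) (C.toE w)).det ≠ 0) :
    ∃ (ι : Type) (_ : Fintype ι) (w : ι → X) (N : ι → Set X) (V : ι → Set E),
      (Fintype.card ι : ℕ∞) = (fixOrb Z G₀).encard ∧ (∀ i, G₀ (w i) = w i) ∧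
      (∀ q, G₀ q = q → ∃ i, ∃ z : Z, z • q = w i) ∧
      (∀ i, IsCompact (N i)) ∧ (∀ i, w i ∈ interior (N i)) ∧ (∀ i, Small Z (N i)) ∧
      (∀ i j, i ≠ j → ∀ x ∈ N i, x ∉ sat Z (N j)) ∧ (∀ i, ∀ x ∈ N i, dist x (G₀ x) ≤ 1) ∧
      (∀ i, IsOpen (V i)) ∧ (∀ i, C.toE '' N i ⊆ V i) ∧ (∀ i, V i ⊆ C.dom) ∧
      (∀ i, ContDiffOn ℝ 1 (C.loc G₀) (V i)) ∧ ∀ i, ∀ x ∈ N i, G₀ x = x → x = w i := by
  classical
  have hrep : ∀ i : fixOrb Z G₀, ∃ q, G₀ q = q ∧ MulAction.orbit Z q = i.1 := by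
    rintro ⟨o, q, hq, rfl⟩
    exact ⟨q, hq, rfl⟩
  choose w hw hwo using hrep
  let _ : Fintype (fixOrb Z G₀) := hfin.fintype
  choose V₀ hV₀ hc using fun i => (hloc (w i) (hw i)).1
  have hd := fun i => (hloc (w i) (hw i)).2
  set V : fixOrb Z G₀ → Set E := fun i => interior (V₀ i) ∩ C.dom with hV
  have hVo : ∀ i, IsOpen (V i) := fun i => isOpen_interior.inter C.isOpen_dom
  have hVm : ∀ i, C.toE (w i) ∈ V i := fun i => ⟨mem_interior_iff_mem_nhds.2 (hV₀ i), C.mem_dom _⟩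
  have hVc : ∀ i, ContDiffOn ℝ 1 (C.loc G₀) (V i) := fun i =>
    (hc i).mono (inter_subset_left.trans interior_subset)
  -- the conditions, for small radii
  have e1 : ∀ i, ∀ᶠ r in 𝓝[>] (0 : ℝ), Small Z (closedBall (w i) r) := by
    intro i
    obtain ⟨ρ, hρ, h⟩ := hZ.exists_small (w i)
    exact ev_Loc hρ fun r hr => h.mono (closedBall_subset_closedBall hr)
  have e2 : ∀ i j, ∀ᶠ r in 𝓝[>] (0 : ℝ), i ≠ j →
      ∀ x ∈ closedBall (w i) r, x ∉ sat Z (closedBall (w j) r) := by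
    intro i j
    by_cases hij : i = j
    · exact Eventually.of_forall fun r h => absurd hij h
    have h1 : ∀ z : Z, z • w i ≠ w j := by
      intro z hz
      apply hij
      apply Subtype.ext
      rw [← hwo i, ← hwo j, ← hz, MulAction.orbit_smul]
    obtain ⟨ρ, hρ, h⟩ := hZ.exists_disjoint h1
    exact ev_Loc hρ fun r hr _ x hx hx' => h x (closedBall_subset_closedBall hr hx)
      (sat_mono (closedBall_subset_closedBall hr) hx')
  have key : ∀ i, ∀ {s : Set X}, s ∈ 𝓝 (w i) →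
      ∀ᶠ r in 𝓝[>] (0 : ℝ), closedBall (w i) r ⊆ s := by
    intro i s hs
    obtain ⟨ρ, hρ, h⟩ := Metric.nhds_basis_closedBall.mem_iff.1 hs
    exact ev_Loc hρ fun r hr => (closedBall_subset_closedBall hr).trans h
  have e3 : ∀ i, ∀ᶠ r in 𝓝[>] (0 : ℝ), closedBall (w i) r ⊆ {x | dist x (G₀ x) ≤ 1} := by
    intro i
    apply key i
    have h1 : ContinuousAt (fun x => dist x (G₀ x)) (w i) :=
      (continuous_id.dist hG₀).continuousAt
    have h2 : dist (w i) (G₀ (w i)) < 1 := by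
      rw [hw i, dist_self]; exact one_pos
    filter_upwards [h1.eventually (gt_mem_nhds h2)] with x hx
    exact hx.le
  have e4 : ∀ i, ∀ᶠ r in 𝓝[>] (0 : ℝ), closedBall (w i) r ⊆ C.toE ⁻¹' V i := fun i =>
    key i (C.cont.continuousAt.preimage_mem_nhds ((hVo i).mem_nhds (hVm i)))
  have e5 : ∀ i, ∀ᶠ r in 𝓝[>] (0 : ℝ), closedBall (w i) r ⊆ {x | G₀ x = x → x = w i} := by
    intro i
    apply key i
    have h1 := isolated_Loc (f := C.disp G₀) ((hVo i).mem_nhds (hVm i))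
      (C.contDiffOn_disp (hVc i)) (hd i)
    have h2 := (C.cont.continuousAt (x := w i)).eventually h1
    filter_upwards [h2] with x hx hfx
    exact C.injective (hx (C.disp_eq_zero.2 hfx))
  have e6 : ∀ᶠ r in 𝓝[>] (0 : ℝ), 0 < r := self_mem_nhdsWithin
  obtain ⟨r, hr1, hr2, hr3, hr4, hr5, hr6⟩ :=
    ((eventually_all.2 e1).and ((eventually_all.2 fun i => eventually_all.2 (e2 i)).and
      ((eventually_all.2 e3).and ((eventually_all.2 e4).and
        ((eventually_all.2 e5).and e6))))).exists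
  refine ⟨fixOrb Z G₀, inferInstance, w, fun i => closedBall (w i) r, V, ?_, hw, ?_,
    fun i => isCompact_closedBall _ _, fun i => ?_, hr1, hr2, fun i x hx => hr3 i hx, hVo,
    fun i => ?_, fun i => inter_subset_right, hVc, fun i x hx => hr5 i hx⟩
  · rw [Set.encard, ENat.card_eq_coe_fintype_card]
  · intro q hq
    refine ⟨⟨MulAction.orbit Z q, q, hq, rfl⟩, ?_⟩
    have h1 := hwo ⟨MulAction.orbit Z q, q, hq, rfl⟩
    have h2 : w ⟨MulAction.orbit Z q, q, hq, rfl⟩ ∈ MulAction.orbit Z q := by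
      have h3 := MulAction.mem_orbit_self (M := Z) (w ⟨MulAction.orbit Z q, q, hq, rfl⟩)
      rwa [h1] at h3
    exact h2
  · exact ball_subset_interior_closedBall (mem_ball_self hr6)
  · rintro _ ⟨x, hx, rfl⟩
    exact hr4 i hx

end Pool.Agent.ANO2.EqIdx
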