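import Pool.Agent.ANO2.EqIdx.Approx
import Pool.Agent.ANO2.EqIdx.Loc

/-!
# Equivariant index: the main theorem (package EQ-MAIN)

`G` of class `C¹`, equivariant, all fixed points nondegenerate with the same sign `σ = ± 1`; `G₀`
continuous, equivariant, `dist (G x) (G₀ x) ≤ c`, `{x | dist x (G₀ x) ≤ R}` compact modulo `Z` for
all
`R`, `G₀` has finitely many orbits of fixed points, all nondegenerate. Then `G` has at most as many
orbits of fixed points as `G₀`. (In particular none if `G₀` has none.)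

Proof. `L` compact with `dist x (G₀ x) ≤ c + 2 → x ∈ sat L`; `N i`, `w i` from `exists_nhds`. The
set
`L \ ⋃ i, sat (interior (N i))` is compact (`Action.isOpen_sat`) and contains no fixed point of
`G₀`,
so `dist x (G₀ x) ≥ 2 η₁ > 0` there, hence on `sat L \ ⋃ sat (interior (N i))`. On the frontier of
`C.toE '' N i` (`Chart.frontier_image`) `‖C.disp G₀‖ ≥ 2 m₀ > 0`. Let `η ≤ min 1 η₁` be such that
`dist a (G₀ x) ≤ η → ‖toE a - toE (G₀ x)‖ < m₀` for `x ∈ N i` (`near_toE`). Apply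
`exists_approx_on` with
`M = L`, `δ = η`. Fixed points `q` of `G'`: `dist q (G₀ q) = dist (G' q) (G₀ q) ≤ c + 1`, so `q ∈
sat L`,
so `dist q (G₀ q) ≤ η`, so `q ∈ sat (interior (N i))` for some `i`. `N i ⊆ sat L` because
`dist x (G₀ x) ≤ 1` on `N i` and `0 ≤ c`. By `tot_eq_sum`
`tot G = tot G' = ∑ i, cnt (C.disp G') (C.toE '' N i)`, and
`cnt (C.disp G') (C.toE '' N i) = cnt (C.disp G₀) (C.toE '' N i)` (`signed_count_homotopy` for `C¹`
extensions, `exists_ext`, `cnt_congr`; on the frontier `‖C.disp G' - C.disp G₀‖ < m₀`), of absolute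
value `≤ 1` (`natAbs_cnt_le`, the only zero is `toE (w i)`). With `encard_eq` and `finite_fixOrb`
the
theorem follows.
-/

set_option autoImplicit false
set_option linter.unusedSectionVars false

open Set Filter Topology Metric
open Pool.Agent.SmoothDegree Pool.Agent.ANO.Idx

namespace Pool.Agent.ANO2.EqIdx

variable {X E : Type} [MetricSpace X] [ProperSpace X] [NormedAddCommGroup E] [NormedSpace ℝ E]
  [FiniteDimensional ℝ E] [Nontrivial E]
variable {C : Chart X E} {Z : Type} [Group Z] [MulAction Z X]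

/-- two `C¹` maps which are close on the frontier have the same signed number of zeros -/
theorem cnt_eq_of_close {U V V' : Set E} {h k : E → E} (hU : IsCompact U) (hV : IsOpen V)
    (hUV : U ⊆ V) (hh : ContDiffOn ℝ 1 h V) (hreg : Reg h U) (hV' : IsOpen V') (hUV' : U ⊆ V')
    (hk : ContDiffOn ℝ 1 k V') (hkreg : Reg k U) (hfr : ∀ x ∈ frontier U, ‖h x - k x‖ < ‖k x‖) :
    cnt h U = cnt k U := by
  obtain ⟨h', hh', hhe⟩ := exists_ext hV hh hU hUV
  obtain ⟨k', hk', hke⟩ := exists_ext hV' hk hU hUV'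
  have hUfr : frontier U ⊆ U := hU.isClosed.frontier_subset
  rw [← cnt_congr hhe, ← cnt_congr hke]
  refine signed_count_homotopy hh' hk' hU ?_ (hreg.congr hhe) (hkreg.congr hke)
  intro x hx t ht h0
  rw [(hhe x (hUfr hx)).eq_of_nhds, (hke x (hUfr hx)).eq_of_nhds] at h0
  have e1 : k x = -((1 - t) • (h x - k x)) := by
    have e2 : h x + t • (k x - h x) = k x + (1 - t) • (h x - k x) := by module
    rw [e2] at h0
    exact eq_neg_of_add_eq_zero_left h0
  have e3 := hfr x hx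
  have ht' : 0 ≤ 1 - t := by linarith [ht.2]
  have e4 : ‖k x‖ = (1 - t) * ‖h x - k x‖ := by
    conv_lhs => rw [e1]
    rw [norm_neg, norm_smul, Real.norm_eq_abs, abs_of_nonneg ht']
  have e5 : (1 - t) * ‖h x - k x‖ ≤ 1 * ‖h x - k x‖ :=
    mul_le_mul_of_nonneg_right (by linarith [ht.1]) (norm_nonneg _)
  linarith

private theorem lower_Main {Y : Type} [TopologicalSpace Y] {K : Set Y} (hK : IsCompact K)
    {f : Y → ℝ} (hf : Continuous f) (hpos : ∀ x ∈ K, 0 < f x) : ∃ m > 0, ∀ x ∈ K, m ≤ f x := by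
  rcases K.eq_empty_or_nonempty with h | h
  · exact ⟨1, one_pos, by simp [h]⟩
  · obtain ⟨p, hp, hmin⟩ := hK.exists_isMinOn h hf.continuousOn
    exact ⟨f p, hpos p hp, fun x hx => hmin hx⟩

private theorem natAbs_sum_Main {ι : Type} [Fintype ι] (a : ι → ℤ) (h : ∀ i, (a i).natAbs ≤ 1) :
    (∑ i, a i).natAbs ≤ Fintype.card ι := by
  have h2 : |∑ i, a i| ≤ ∑ _i : ι, (1 : ℤ) := by
    refine (Finset.abs_sum_le_sum_abs _ _).trans (Finset.sum_le_sum fun i _ => ?_)
    have := h i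
    rw [Int.abs_eq_natAbs]
    exact_mod_cast this
  rw [Finset.sum_const, nsmul_eq_mul, mul_one, Int.abs_eq_natAbs, Finset.card_univ] at h2
  exact_mod_cast h2

theorem encard_fixOrb_le (hZ : Action C Z) {G G₀ : X → X} (hG : Eqv C Z G)
    (hnd : NdOn C G univ) {σ : ℤ} (hσ : σ.natAbs = 1) (hs : ∀ q, G q = q → sg C G q = σ)
    (hG₀ : Continuous G₀) (he : ∀ (z : Z) (x : X), G₀ (z • x) = z • G₀ x) {c : ℝ}
    (hc : ∀ x, dist (G x) (G₀ x) ≤ c)
    (hcpt : ∀ R : ℝ, ∃ L, IsCompact L ∧ ∀ x, dist x (G₀ x) ≤ R → x ∈ sat Z L)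
    (hfin : (fixOrb Z G₀).Finite)
    (hloc : ∀ w, G₀ w = w → (∃ V ∈ 𝓝 (C.toE w), ContDiffOn ℝ 1 (C.loc G₀) V) ∧
      (fderiv ℝ (C.disp G₀) (C.toE w)).det ≠ 0) :
    (fixOrb Z G).encard ≤ (fixOrb Z G₀).encard := by
  rcases isEmpty_or_nonempty X with hX | ⟨⟨x₀⟩⟩
  · have h1 : fixOrb Z G = ∅ := by
      rw [fixOrb, image_eq_empty]
      exact eq_empty_of_forall_notMem fun x => (hX.false x).elim
    rw [h1, encard_empty]
    exact zero_le
  have hc0 : 0 ≤ c := dist_nonneg.trans (hc x₀)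
  obtain ⟨L, hL, hLc⟩ := hcpt (c + 2)
  obtain ⟨ι, _, w, N, V, hcard, hw, hall, hNc, hNi, hNs, hNd, hN1, hVo, hNV, hVd, hVs, hNu⟩ :=
    exists_nhds hZ hG₀ he hfin hloc
  -- the part of `L` away from the fixed points
  have hA : IsCompact (L \ ⋃ i, sat Z (interior (N i))) :=
    hL.diff (isOpen_iUnion fun i => hZ.isOpen_sat isOpen_interior)
  obtain ⟨η₁, hη₁, hA1⟩ := lower_Main hA (f := fun x => dist x (G₀ x))
    (continuous_id.dist hG₀) (by
      intro x hx
      rw [dist_pos]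
      intro h0
      obtain ⟨i, z, hz⟩ := hall x h0.symm
      apply hx.2
      rw [mem_iUnion]
      refine ⟨i, z, ?_⟩
      rw [hz]
      exact hNi i)
  have hA2 : ∀ x ∈ sat Z L, dist x (G₀ x) < η₁ → ∃ i, x ∈ sat Z (interior (N i)) := by
    intro x hx hd
    by_contra hcon
    push Not at hcon
    obtain ⟨z, hz⟩ := hx
    have h1 : z • x ∈ L \ ⋃ i, sat Z (interior (N i)) := by
      refine ⟨hz, ?_⟩
      rw [mem_iUnion]
      rintro ⟨i, hi⟩
      exact hcon i (smul_mem_sat.1 hi)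
    have h2 := hA1 _ h1
    simp only [he, hZ.dist_smul] at h2
    linarith
  -- the frontiers
  have hF : IsCompact (⋃ i, frontier (N i)) :=
    isCompact_iUnion fun i => (hNc i).of_isClosed_subset isClosed_frontier
      (hNc i).isClosed.frontier_subset
  have hGt : Continuous fun x => ‖C.toE x - C.toE (G₀ x)‖ :=
    (C.cont.sub (C.cont.comp hG₀)).norm
  obtain ⟨m₀, hm₀, hF1⟩ := lower_Main hF hGt (by
    intro x hx
    rw [mem_iUnion] at hx
    obtain ⟨i, hi⟩ := hx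
    rw [norm_pos_iff, sub_ne_zero]
    intro h0
    have h1 : x = G₀ x := C.injective h0
    have h2 := hNu i x ((hNc i).isClosed.frontier_subset hi) h1.symm
    rw [h2] at hi
    exact hi.2 (hNi i))
  have hK : IsCompact (G₀ '' ⋃ i, N i) := (isCompact_iUnion hNc).image hG₀
  obtain ⟨ε, hε, hnear⟩ := near_toE C hK hm₀
  obtain ⟨η, hη, hη1, hη2, hη3⟩ : ∃ η : ℝ, 0 < η ∧ η ≤ 1 ∧ η < η₁ ∧ η < ε := by
    refine ⟨min 1 (min (η₁ / 2) (ε / 2)), by positivity, min_le_left _ _, ?_, ?_⟩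
    · have : min 1 (min (η₁ / 2) (ε / 2)) ≤ η₁ / 2 := (min_le_right _ _).trans (min_le_left _ _)
      linarith
    · have : min 1 (min (η₁ / 2) (ε / 2)) ≤ ε / 2 := (min_le_right _ _).trans (min_le_right _ _)
      linarith
  obtain ⟨G', hG', hnd', hd1, hd2, htot⟩ :=
    exists_approx_on hZ hG hnd hG₀ he hc hL hLc hL hη hη1
  have hfixL : ∀ q, G' q = q → q ∈ sat Z L := by
    intro q hq
    apply hLc
    have h1 := hd1 q
    rw [hq] at h1
    linarith
  have hfixN : ∀ q, G' q = q → ∃ i, q ∈ sat Z (N i) := by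
    intro q hq
    have h1 := hd2 q (hfixL q hq)
    rw [hq] at h1
    obtain ⟨i, hi⟩ := hA2 q (hfixL q hq) (by linarith)
    exact ⟨i, sat_mono interior_subset hi⟩
  have hfinG' : (fixOrb Z G').Finite :=
    finite_fixOrb hG' hL (fun q _ => hnd' q (mem_univ q)) hfixL
  have hsum := tot_eq_sum hZ hG' N hNs hNd hfixN hfinG'
  have hNL : ∀ i, ∀ x ∈ N i, x ∈ sat Z L := by
    intro i x hx
    apply hLc
    have := hN1 i x hx
    linarith
  have hcnt : ∀ i, cnt (C.disp G') (C.toE '' N i) = cnt (C.disp G₀) (C.toE '' N i) := by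
    intro i
    refine cnt_eq_of_close (V := C.dom) (V' := V i) ((hNc i).image C.cont) C.isOpen_dom ?_
      (C.contDiffOn_disp hG'.smooth) ?_ (hVo i) (hNV i) (C.contDiffOn_disp (hVs i)) ?_ ?_
    · rintro _ ⟨p, -, rfl⟩
      exact C.mem_dom p
    · rintro _ ⟨q, -, rfl⟩ h0
      exact hnd' q (mem_univ q) (C.disp_eq_zero.1 h0)
    · rintro _ ⟨q, -, rfl⟩ h0
      exact (hloc q (C.disp_eq_zero.1 h0)).2
    · intro x hx
      rw [C.frontier_image (hNc i)] at hx
      obtain ⟨q, hq, rfl⟩ := hx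
      have hqN : q ∈ N i := (hNc i).isClosed.frontier_subset hq
      have h1 : m₀ ≤ ‖C.toE q - C.toE (G₀ q)‖ := hF1 q (mem_iUnion.2 ⟨i, hq⟩)
      have h2 := hd2 q (hNL i q hqN)
      have h3 : ‖C.toE (G' q) - C.toE (G₀ q)‖ < m₀ :=
        hnear (G₀ q) ⟨q, mem_iUnion.2 ⟨i, hqN⟩, rfl⟩ (G' q) (by linarith)
      rw [C.disp_toE, C.disp_toE, sub_sub_sub_cancel_left, norm_sub_rev]
      linarith
  have h1 : ∀ i, (cnt (C.disp G') (C.toE '' N i)).natAbs ≤ 1 := by
    intro i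
    rw [hcnt i]
    apply natAbs_cnt_le
    have hsub : C.toE '' N i ∩ C.disp G₀ ⁻¹' {0} ⊆ {C.toE (w i)} := by
      rintro _ ⟨⟨q, hq, rfl⟩, h0⟩
      have h2 : G₀ q = q := C.disp_eq_zero.1 h0
      rw [hNu i q hq h2]
      exact rfl
    refine (encard_le_encard hsub).trans ?_
    rw [encard_singleton]
    exact le_of_eq Nat.cast_one.symm
  have hfinG : (fixOrb Z G).Finite := by
    refine finite_fixOrb hG hL (fun q _ => hnd q (mem_univ q)) ?_
    intro q hq
    apply hLc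
    have h2 := hc q
    rw [hq] at h2
    linarith
  rw [encard_eq hZ hG hσ hs hfinG, ← htot, hsum, ← hcard]
  exact_mod_cast natAbs_sum_Main _ h1

/-- (E1) -/
theorem no_fix (hZ : Action C Z) {G G₀ : X → X} (hG : Eqv C Z G) (hnd : NdOn C G univ) {σ : ℤ}
    (hσ : σ.natAbs = 1) (hs : ∀ q, G q = q → sg C G q = σ) (hG₀ : Continuous G₀)
    (he : ∀ (z : Z) (x : X), G₀ (z • x) = z • G₀ x) {c : ℝ} (hc : ∀ x, dist (G x) (G₀ x) ≤ c)
    (hcpt : ∀ R : ℝ, ∃ L, IsCompact L ∧ ∀ x, dist x (G₀ x) ≤ R → x ∈ sat Z L)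
    (h0 : ∀ x, G₀ x ≠ x) (q : X) : G q ≠ q := by
  intro hq
  have h1 : fixOrb Z G₀ = ∅ := by
    rw [fixOrb, image_eq_empty]
    exact eq_empty_of_forall_notMem h0
  have h2 := encard_fixOrb_le hZ hG hnd hσ hs hG₀ he hc hcpt (by rw [h1]; exact finite_empty)
    (fun w hw => (h0 w hw).elim)
  rw [h1, encard_empty, nonpos_iff_eq_zero, encard_eq_zero] at h2
  have h3 : MulAction.orbit Z q ∈ fixOrb Z G := ⟨q, hq, rfl⟩
  rw [h2] at h3
  exact h3

end Pool.Agent.ANO2.EqIdx
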