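import Pool.Agent.ANO2.EqIdx.Basic

/-!
# Equivariant index: uniform estimates on compact sets (package EQ-NEAR)

Compactness. `near_ofE`: `C.toE '' K` is compact, `C.dom` is open, `C.ofE` is continuous on `C.dom`.
`near_toE`: `C.toE` is continuous and `K` is compact
(`IsCompact.uniformContinuousAt_of_continuousAt`
or a direct argument).
-/

set_option autoImplicit false
set_option linter.unusedSectionVars false

open Set Filter Topology Metric
open Pool.Agent.SmoothDegree Pool.Agent.ANO.Idx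

namespace Pool.Agent.ANO2.EqIdx

variable {X E : Type} [MetricSpace X] [NormedAddCommGroup E] [NormedSpace ℝ E]

theorem near_ofE (C : Chart X E) {K : Set X} (hK : IsCompact K) {δ : ℝ} (hδ : 0 < δ) :
    ∃ ε > 0, ∀ p ∈ K, ∀ e : E, ‖e - C.toE p‖ < ε → e ∈ C.dom ∧ dist (C.ofE e) p < δ := by
  have hK' : IsCompact (C.toE '' K) := hK.image C.cont
  have hsub : C.toE '' K ⊆ C.dom := by
    rintro _ ⟨p, -, rfl⟩
    exact C.mem_dom p
  obtain ⟨r, hr, hr'⟩ := hK'.exists_thickening_subset_open C.isOpen_dom hsub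
  have hc : ∀ x ∈ C.toE '' K, ContinuousAt C.ofE x := fun x hx =>
    C.contOf.continuousAt (C.isOpen.mem_nhds (hsub hx))
  have hu := hK'.uniformContinuousAt_of_continuousAt C.ofE hc (Metric.dist_mem_uniformity hδ)
  obtain ⟨ε, hε, hε'⟩ := Metric.mem_uniformity_dist.1 hu
  refine ⟨min ε r, lt_min hε hr, fun p hp e he => ?_⟩
  have h1 : dist e (C.toE p) < min ε r := by rwa [dist_eq_norm]
  have hp' : C.toE p ∈ C.toE '' K := ⟨p, hp, rfl⟩
  refine ⟨hr' (Metric.mem_thickening_iff.2 ⟨_, hp', h1.trans_le (min_le_right _ _)⟩), ?_⟩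
  have h2 : dist (C.toE p) e < ε := by
    rw [dist_comm]
    exact h1.trans_le (min_le_left _ _)
  have h3 : dist (C.ofE (C.toE p)) (C.ofE e) < δ := hε' h2 hp'
  rwa [C.left_inv, dist_comm] at h3

theorem near_toE (C : Chart X E) {K : Set X} (hK : IsCompact K) {δ : ℝ} (hδ : 0 < δ) :
    ∃ ε > 0, ∀ p ∈ K, ∀ a : X, dist a p < ε → ‖C.toE a - C.toE p‖ < δ := by
  have hu := hK.uniformContinuousAt_of_continuousAt C.toE (fun x _ => C.cont.continuousAt)
    (Metric.dist_mem_uniformity hδ)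
  obtain ⟨ε, hε, hε'⟩ := Metric.mem_uniformity_dist.1 hu
  refine ⟨ε, hε, fun p hp a ha => ?_⟩
  have h2 : dist p a < ε := by rwa [dist_comm]
  have h3 : dist (C.toE p) (C.toE a) < δ := hε' h2 hp
  rwa [dist_comm, dist_eq_norm] at h3

end Pool.Agent.ANO2.EqIdx
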