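import Pool.Agent.ANO2.EqIdx.Ext
import Pool.Agent.ANO2.EqIdx.Sard
import Pool.Agent.ANO2.EqIdx.Near
import Pool.Agent.ANO2.EqIdx.Fin

/-!
# Equivariant index: generic perturbation of the identity (package EQ-PERT)

If `Z` is cocompact then there is an equivariant `C¹` map `θ` with `dist (θ x) x ≤ δ` all of whose
fixed points are nondegenerate; so there are finitely many orbits of fixed points.

* `exists_pert`: let `G` be equivariant, `C¹`, with nondegenerate fixed points in the compact set
  `M`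
  (so in `sat M`: `NdOn.sat`), `closedBall p ρ'` small, `ρ < ρ'`, `δ > 0`. There is `G'`,
  equivariant,
  `C¹`, `dist (G' x) (G x) ≤ δ`, with nondegenerate fixed points in `M ∪ closedBall p ρ`. Proof:
  `χ : E → [0, 1]` smooth, `1` near `C.toE '' closedBall p ρ`, `0` outside `C.toE '' ball p ρ₁`,
  `ρ < ρ₁ < ρ'`. `B = closedBall p ρ'`, `K = closedBall p ρ₁`. For small `v` let `m x = ofE (toE (G
  x) + χ e • v)`,
  `e = toE x`, for `x ∈ B` (in `C.dom` by `near_ofE` for the compact set `G '' B`), extended by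
  `exists_extend`. The set `M' = B ∩ ⋃ z, z • M` (finitely many `z` matter, `Action.proper`) is
  compact,
  `G` has nondegenerate fixed points in it; by `exists_small_reg` this remains true for `m` if `v`
  is
  small. By `exists_reg` (`g = C.loc G`) `v` can be chosen so that the fixed points of `m` in
  `closedBall p ρ` (`χ = 1`) are nondegenerate. Fixed points of `G'` in `M`: a point `x ∈ M` with
  `z • x ∈ B` for some `z`: `z • x ∈ M'`, use the equivariance (`NdOn.sat`); otherwise `G' = G`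
  near `x`.
  For points of `M'` on the frontier of `B`: there `G' = G` near `x`. Alternatively apply
  `exists_small_reg` on `B ∩ ...` with `B` in the interior of a slightly larger small ball.
* `exists_perturbation`: induction over a finite cover of a compact `M` with `sat M = univ`,
  starting with
  `G = id` and `M = ∅`, with `δ / (number of balls)` in each step.
-/

set_option autoImplicit false
set_option linter.unusedSectionVars false

open Set Filter Topology Metric
open Pool.Agent.SmoothDegree Pool.Agent.ANO.Idx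

namespace Pool.Agent.ANO2.EqIdx

variable {X E : Type} [MetricSpace X] [ProperSpace X] [NormedAddCommGroup E] [NormedSpace ℝ E]
  [FiniteDimensional ℝ E]
variable {C : Chart X E} {Z : Type} [Group Z] [MulAction Z X]

/-- A cut-off function in the chart. -/
private theorem exists_bump_Pert (C : Chart X E) (p : X) {ρ ρ₁ : ℝ} (h : ρ < ρ₁) :
    ∃ χ : E → ℝ, ContDiff ℝ 1 χ ∧ (∀ e, χ e ∈ Icc (0 : ℝ) 1) ∧
      (∀ x ∈ closedBall p ρ, χ (C.toE x) = 1) ∧ ∀ x, x ∉ ball p ρ₁ → χ (C.toE x) = 0 := by
  have hs : IsClosed (C.toE '' ball p ρ₁)ᶜ :=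
    (C.isOpenEmbedding.isOpenMap _ isOpen_ball).isClosed_compl
  have ht : IsClosed (C.toE '' closedBall p ρ) :=
    ((isCompact_closedBall p ρ).image C.cont).isClosed
  have hd : Disjoint (C.toE '' ball p ρ₁)ᶜ (C.toE '' closedBall p ρ) := by
    rw [disjoint_compl_left_iff_subset]
    exact image_mono (closedBall_subset_ball h)
  obtain ⟨f, hf0, hf1, hf⟩ := exists_contMDiffMap_zero_one_of_isClosed (n := 1)
    (modelWithCornersSelf ℝ E) hs ht hd
  refine ⟨f, f.contMDiff.contDiff, hf, fun x hx => hf1 (mem_image_of_mem _ hx), fun x hx => ?_⟩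
  refine hf0 ?_
  rintro ⟨y, hy, hxy⟩
  exact hx (C.injective hxy ▸ hy)

theorem exists_pert (hZ : Action C Z) {G : X → X} (hG : Eqv C Z G) {M : Set X} (hM : IsCompact M)
    (hnd : NdOn C G M) (p : X) {ρ ρ' : ℝ} (hρ0 : 0 < ρ) (hρ : ρ < ρ')
    (hs : Small Z (closedBall p ρ')) {δ : ℝ}
    (hδ : 0 < δ) :
    ∃ G' : X → X, Eqv C Z G' ∧ (∀ x, dist (G' x) (G x) ≤ δ) ∧ NdOn C G' (M ∪ closedBall p ρ) := by
  obtain ⟨ρ₁, h1, h2⟩ := exists_between hρ
  obtain ⟨χ, hχ, hχ01, hχ1, hχ0⟩ := exists_bump_Pert C p h1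
  have hB : IsCompact (closedBall p ρ') := isCompact_closedBall p ρ'
  have hK : IsCompact (closedBall p ρ₁) := isCompact_closedBall p ρ₁
  have hKB : closedBall p ρ₁ ⊆ interior (closedBall p ρ') :=
    (closedBall_subset_ball h2).trans ball_subset_interior_closedBall
  have hM' : IsCompact (closedBall p ρ' ∩ sat Z M) := hB.inter_right (hZ.isClosed_sat hM)
  have hGc : Continuous G := C.continuous_of_loc hG.smooth.continuousOn
  have hnd' := NdOn.sat hZ hG hnd
  obtain ⟨δ₁, hδ₁, hsr⟩ := exists_small_reg (V := C.dom) (h := C.loc G)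
    (K := C.toE '' (closedBall p ρ' ∩ sat Z M)) C.isOpen_dom hG.smooth hχ (hM'.image C.cont)
    (by rintro _ ⟨y, -, rfl⟩; exact C.mem_dom y)
    (by
      rintro _ ⟨y, hy, rfl⟩ h0
      exact hnd' y hy.2 (C.disp_eq_zero.1 h0))
  obtain ⟨ε, hε, hne⟩ := near_ofE C (hB.image hGc) hδ
  obtain ⟨v, hv, hreg⟩ := exists_reg (V := C.dom) (h := C.loc G) (g := C.loc G) C.isOpen_dom
    hG.smooth hG.smooth hχ (lt_min hδ₁ hε)
  simp only [add_sub_cancel_left] at hreg
  have hv1 : ‖v‖ < δ₁ := hv.trans_le (min_le_left _ _)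
  have hv2 : ‖v‖ < ε := hv.trans_le (min_le_right _ _)
  -- the local modification
  have hm : ∀ x ∈ closedBall p ρ', C.toE (G x) + χ (C.toE x) • v ∈ C.dom ∧
      dist (C.ofE (C.toE (G x) + χ (C.toE x) • v)) (G x) < δ := by
    intro x hx
    apply hne (G x) (mem_image_of_mem _ hx)
    rw [add_sub_cancel_left, norm_smul, Real.norm_eq_abs, abs_of_nonneg (hχ01 _).1]
    exact (mul_le_of_le_one_left (norm_nonneg v) (hχ01 _).2).trans_lt hv2
  have hloc : ∀ m : X → X, (∀ x ∈ closedBall p ρ',
      m x = C.ofE (C.toE (G x) + χ (C.toE x) • v)) → ∀ e ∈ C.toE '' closedBall p ρ',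
      C.loc m e = C.loc G e + χ e • v := by
    rintro m hmm _ ⟨x, hx, rfl⟩
    rw [C.loc_toE, C.loc_toE, hmm x hx, C.toE_ofE (hm x hx).1]
  obtain ⟨G', hG', hGm, hGG⟩ := exists_extend hZ hG (B := closedBall p ρ')
    (K := closedBall p ρ₁) (m := fun x => C.ofE (C.toE (G x) + χ (C.toE x) • v)) hs hK hKB
    (by
      have h3 : ContDiffOn ℝ 1 (fun e => C.loc G e + χ e • v) (C.toE '' interior
          (closedBall p ρ')) := by
        refine (hG.smooth.mono ?_).add (hχ.smul contDiff_const).contDiffOn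
        rintro _ ⟨y, -, rfl⟩
        exact C.mem_dom y
      exact h3.congr fun e he => hloc _ (fun _ _ => rfl) e (image_mono interior_subset he))
    (by
      intro x _ hx
      have h3 : χ (C.toE x) = 0 := hχ0 x fun h => hx (ball_subset_closedBall h)
      simp only [h3, zero_smul, add_zero, C.left_inv])
  have hev : ∀ x ∈ closedBall p ρ₁,
      C.disp G' =ᶠ[𝓝 (C.toE x)] fun e => e - (C.loc G e + χ e • v) := by
    intro x hx
    filter_upwards [(C.isOpenEmbedding.isOpenMap _ isOpen_interior).mem_nhds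
      (mem_image_of_mem _ (hKB hx))] with e he
    rw [Chart.disp, hloc G' hGm e (image_mono interior_subset he)]
  refine ⟨G', hG', fun x => ?_, ?_⟩
  · by_cases hx : x ∈ sat Z (closedBall p ρ₁)
    · obtain ⟨z, hz⟩ := hx
      have hzB : z • x ∈ closedBall p ρ' := interior_subset (hKB hz)
      rw [← hZ.dist_smul z, ← hG'.equi, ← hG.equi, hGm _ hzB]
      exact (hm _ hzB).2.le
    · rw [hGG x hx, dist_self]
      exact hδ.le
  · rintro q (hq | hq) hfix
    · by_cases hx : q ∈ sat Z (closedBall p ρ₁)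
      · obtain ⟨z, hz⟩ := hx
        have hzB : z • q ∈ closedBall p ρ' := interior_subset (hKB hz)
        have hzM : z • q ∈ sat Z M := smul_mem_sat.2 (subset_sat M hq)
        have h3 : NdOn C G' {z • q} := by
          intro y hy hfy
          rw [mem_singleton_iff] at hy
          subst hy
          rw [(hev _ hz).fderiv_eq]
          apply hsr v hv1 _ (mem_image_of_mem _ ⟨hzB, hzM⟩)
          rw [← (hev _ hz).eq_of_nhds]
          exact C.disp_eq_zero.2 hfy
        exact NdOn.sat hZ hG' h3 q ⟨z, rfl⟩ hfix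
      · have h3 : G' =ᶠ[𝓝 q] G := by
          filter_upwards [(hZ.isClosed_sat hK).isOpen_compl.mem_nhds hx] with y hy
          exact hGG y hy
        rw [(C.disp_congr h3).fderiv_eq]
        exact hnd q hq (by rw [← h3.eq_of_nhds]; exact hfix)
    · have hqK : q ∈ closedBall p ρ₁ := closedBall_subset_closedBall h1.le hq
      rw [(hev _ hqK).fderiv_eq]
      apply hreg _ (C.mem_dom q)
      · rw [hχ1 q hq]
        exact one_ne_zero
      · rw [← (hev _ hqK).eq_of_nhds]
        exact C.disp_eq_zero.2 hfix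

private theorem eqv_id_Pert : Eqv C Z (id : X → X) := by
  refine ⟨?_, fun _ _ => rfl⟩
  exact contDiffOn_id.congr fun e he => C.toE_ofE he

private theorem step_Pert (hZ : Action C Z) (r : X → ℝ) (hr : ∀ p, 0 < r p)
    (hs : ∀ p, Small Z (closedBall p (r p))) (t : Finset X) :
    ∀ δ : ℝ, 0 < δ → ∃ θ : X → X, Eqv C Z θ ∧ (∀ x, dist (θ x) x ≤ δ) ∧
      NdOn C θ (⋃ p ∈ t, closedBall p (r p / 2)) := by
  classical
  induction t using Finset.induction_on with
  | empty =>
    intro δ hδ
    refine ⟨id, eqv_id_Pert, fun x => ?_, ?_⟩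
    · rw [id, dist_self]
      exact hδ.le
    · intro q hq
      simp at hq
  | insert p t _ ih =>
    intro δ hδ
    obtain ⟨θ, hθ, hd, hn⟩ := ih (δ / 2) (by positivity)
    have hM : IsCompact (⋃ p ∈ t, closedBall p (r p / 2)) :=
      t.isCompact_biUnion fun p _ => isCompact_closedBall p _
    obtain ⟨G', hG', hd', hn'⟩ := exists_pert hZ hθ hM hn p (half_pos (hr p))
      (half_lt_self (hr p)) (hs p) (half_pos hδ)
    refine ⟨G', hG', fun x => ?_, ?_⟩
    · have h1 := dist_triangle (G' x) (θ x) x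
      linarith [hd x, hd' x]
    · rwa [Finset.set_biUnion_insert, union_comm]

theorem exists_perturbation (hZ : Action C Z) (hco : ∃ M : Set X, IsCompact M ∧ sat Z M = univ)
    {δ : ℝ} (hδ : 0 < δ) :
    ∃ θ : X → X, Eqv C Z θ ∧ (∀ x, dist (θ x) x ≤ δ) ∧ NdOn C θ univ ∧ (fixOrb Z θ).Finite := by
  obtain ⟨M, hM, hMu⟩ := hco
  choose r hr hs using hZ.exists_small
  obtain ⟨t, -, ht⟩ := hM.elim_nhds_subcover (fun p => closedBall p (r p / 2))
    fun p _ => closedBall_mem_nhds p (half_pos (hr p))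
  obtain ⟨θ, hθ, hd, hn⟩ := step_Pert hZ r hr hs t δ hδ
  have h1 : NdOn C θ M := fun q hq => hn q (ht hq)
  refine ⟨θ, hθ, hd, ?_, finite_fixOrb hθ hM h1 fun q _ => by rw [hMu]; exact mem_univ q⟩
  rw [← hMu]
  exact NdOn.sat hZ hθ h1

end Pool.Agent.ANO2.EqIdx
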