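import Pool.Agent.ANO2.EqIdx.Sign

/-!
# Equivariant index: the orbits which meet a small set (package EQ-BALL)

* `sum_small`: for `B` with disjoint translates, `q ↦ orbit q` is a bijection from the fixed points
  in `B` to the orbits of fixed points which meet `B` (`Small.orbit_injOn`), so (`osg_orbit`) the
  sum
  of `osg` over the latter is the sum of `sg` over the former, and this is `cnt (C.disp G)` of
  `C.toE '' B` (`Chart.disp_eq_zero`, `Chart.injective`).  No finiteness is needed: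
  `finsum_mem_image`.
* `tot_eq_sum`: for a finite family of such sets with disjoint saturations which contain all fixed
  points.
-/

set_option autoImplicit false
set_option linter.unusedSectionVars false

open Set Filter Topology Metric
open Pool.Agent.SmoothDegree Pool.Agent.ANO.Idx

namespace Pool.Agent.ANO2.EqIdx

variable {X E : Type} [MetricSpace X] [NormedAddCommGroup E] [NormedSpace ℝ E]
  [FiniteDimensional ℝ E]
variable {C : Chart X E} {Z : Type} [Group Z] [MulAction Z X]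

theorem sum_small (hZ : Action C Z) {G : X → X} (hG : Eqv C Z G) {B : Set X} (hs : Small Z B) :
    ∑ᶠ o ∈ {o ∈ fixOrb Z G | (o ∩ B).Nonempty}, osg C G o = cnt (C.disp G) (C.toE '' B) := by
  obtain ⟨A, hA⟩ : ∃ A : Set X, A = {q | q ∈ B ∧ G q = q} := ⟨_, rfl⟩
  have hmem : ∀ q, q ∈ A ↔ q ∈ B ∧ G q = q := by
    intro q
    rw [hA]
    exact Iff.rfl
  have hAB : A ⊆ B := fun q hq => ((hmem q).1 hq).1
  have h1 : {o | o ∈ fixOrb Z G ∧ (o ∩ B).Nonempty}
      = (fun q => MulAction.orbit Z q) '' A := by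
    ext o
    constructor
    · rintro ⟨ho, x, hxo, hxB⟩
      obtain ⟨h2, h3⟩ := mem_fixOrb hG.equi ho hxo
      exact ⟨x, (hmem x).2 ⟨hxB, h2⟩, h3.symm⟩
    · rintro ⟨q, hq, rfl⟩
      exact ⟨⟨q, ((hmem q).1 hq).2, rfl⟩, q, MulAction.mem_orbit_self q, hAB hq⟩
  have h2 : (C.toE '' B) ∩ C.disp G ⁻¹' {0} = C.toE '' A := by
    ext x
    constructor
    · rintro ⟨⟨q, hq, rfl⟩, hx⟩
      exact ⟨q, (hmem q).2 ⟨hq, C.disp_eq_zero.1 hx⟩, rfl⟩
    · rintro ⟨q, hq, rfl⟩
      exact ⟨⟨q, hAB hq, rfl⟩, C.disp_eq_zero.2 ((hmem q).1 hq).2⟩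
  rw [h1, finsum_mem_image (hs.orbit_injOn.mono hAB), cnt, h2,
    finsum_mem_image C.injective.injOn]
  apply finsum_mem_congr rfl
  intro q hq
  exact osg_orbit hZ hG ((hmem q).1 hq).2

theorem tot_eq_sum (hZ : Action C Z) {G : X → X} (hG : Eqv C Z G) {ι : Type} [Fintype ι]
    (N : ι → Set X) (hs : ∀ i, Small Z (N i))
    (hdis : ∀ i j, i ≠ j → ∀ x ∈ N i, x ∉ sat Z (N j))
    (hfix : ∀ q, G q = q → ∃ i, q ∈ sat Z (N i)) (hfin : (fixOrb Z G).Finite) :
    tot C Z G = ∑ i, cnt (C.disp G) (C.toE '' N i) := by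
  have h1 : fixOrb Z G = ⋃ i, {o | o ∈ fixOrb Z G ∧ (o ∩ N i).Nonempty} := by
    ext o
    rw [mem_iUnion]
    constructor
    · intro ho
      obtain ⟨q, hq, rfl⟩ := ho
      obtain ⟨i, z, hz⟩ := hfix q hq
      exact ⟨i, ⟨q, hq, rfl⟩, z • q, MulAction.mem_orbit q z, hz⟩
    · rintro ⟨i, ho, -⟩
      exact ho
  have h2 : Pairwise (Function.onFun Disjoint
      fun i => {o | o ∈ fixOrb Z G ∧ (o ∩ N i).Nonempty}) := by
    intro i j hij
    rw [Function.onFun, Set.disjoint_left]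
    rintro o ⟨ho, x, hxo, hxi⟩ ⟨-, y, hyo, hyj⟩
    obtain ⟨-, h3⟩ := mem_fixOrb hG.equi ho hxo
    rw [h3] at hyo
    obtain ⟨z, rfl⟩ := hyo
    exact hdis i j hij x hxi ⟨z, hyj⟩
  rw [tot, h1, finsum_mem_iUnion h2 (fun i => hfin.subset fun o ho => ho.1),
    finsum_eq_sum_of_fintype]
  exact Finset.sum_congr rfl fun i _ => sum_small hZ hG (hs i)

end Pool.Agent.ANO2.EqIdx
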