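import Pool.Agent.ANO.Idx.Count

/-!
# Equivariant index: definitions

`MP_5e77d9_an`, blueprint `/team-store/ANO_Phase2.md`, section 6.

`X` is a proper metric space with a global chart `toE : X → E` onto a convex open subset of the
finite-dimensional space `E`, such that moving from `a` to `b` on the straight line of the chart
does
not increase the distance to `b` (as for products of hyperbolic planes and `ℝ^k`).  A group `Z` acts
on `X` freely and properly discontinuously, by isometries which are `C¹` in the chart.

For an equivariant `C¹` map `G : X → X` all of whose fixed points are nondegenerate, `tot C Z G` is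
the sum of the signs of `det (1 - DG)` over the `Z`-orbits of fixed points.

* `Main.lean`: if all the signs are equal and `G₀ : X → X` is continuous, equivariant, at bounded
  distance of `G`, proper modulo `Z`, and has finitely many orbits of fixed points, all
  nondegenerate, then `G` has at most as many orbits of fixed points as `G₀`.
* `Pert.lean`: if `Z` is cocompact then there is an equivariant `C¹` map near the identity with
  nondegenerate fixed points.
-/

set_option autoImplicit false

open Set Filter Topology
open Pool.Agent.SmoothDegree Pool.Agent.ANO.Idx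

namespace Pool.Agent.ANO2.EqIdx

/-- A global convex chart of the metric space `X`. -/
structure Chart (X E : Type) [MetricSpace X] [NormedAddCommGroup E] [NormedSpace ℝ E] where
  toE : X → E
  ofE : E → X
  left_inv : ∀ p, ofE (toE p) = p
  isOpen : IsOpen (range toE)
  cont : Continuous toE
  contOf : ContinuousOn ofE (range toE)
  conv : Convex ℝ (range toE)
  ball : ∀ (a b : X) (t : ℝ), t ∈ Icc (0 : ℝ) 1 →
    dist (ofE ((1 - t) • toE a + t • toE b)) b ≤ dist a b

variable {X E : Type} [MetricSpace X] [NormedAddCommGroup E] [NormedSpace ℝ E]

/-- The image of the chart. -/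
def Chart.dom (C : Chart X E) : Set E := range C.toE

/-- A map of `X` in the chart. -/
def Chart.loc (C : Chart X E) (G : X → X) (x : E) : E := C.toE (G (C.ofE x))

/-- The displacement `x - G x` in the chart; its zeros are the fixed points of `G`. -/
def Chart.disp (C : Chart X E) (G : X → X) (x : E) : E := x - C.loc G x

variable (C : Chart X E) (Z : Type) [Group Z] [MulAction Z X]

/-- `Z` acts on `X` freely, properly discontinuously, by isometries of class `C¹`. -/
structure Action : Prop where
  dist_smul : ∀ (z : Z) (x y : X), dist (z • x) (z • y) = dist x y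
  smooth : ∀ z : Z, ContDiffOn ℝ 1 (C.loc fun x => z • x) C.dom
  free : ∀ (z : Z) (x : X), z • x = x → z = 1
  proper : ∀ K : Set X, IsCompact K → {z : Z | ∃ x ∈ K, z • x ∈ K}.Finite

/-- An equivariant `C¹` map. -/
structure Eqv (G : X → X) : Prop where
  smooth : ContDiffOn ℝ 1 (C.loc G) C.dom
  equi : ∀ (z : Z) (x : X), G (z • x) = z • G x

/-- The fixed points of `G` in `s` are nondegenerate. -/
def NdOn (G : X → X) (s : Set X) : Prop :=
  ∀ q ∈ s, G q = q → (fderiv ℝ (C.disp G) (C.toE q)).det ≠ 0

/-- The sign of `det (1 - DG)` at `q`. -/
noncomputable def sg (G : X → X) (q : X) : ℤ := jacobianSign (C.disp G) (C.toE q)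

/-- The `Z`-orbits of the fixed points of `G`. -/
def fixOrb (G : X → X) : Set (Set X) := (fun q => MulAction.orbit Z q) '' {q | G q = q}

open Classical in
/-- The sign of an orbit of fixed points. -/
noncomputable def osg (G : X → X) (o : Set X) : ℤ :=
  if h : ∃ q ∈ o, G q = q then sg C G h.choose else 0

/-- The sum of the signs over the orbits of fixed points. -/
noncomputable def tot (G : X → X) : ℤ := ∑ᶠ o ∈ fixOrb Z G, osg C G o

/-- The translates of `B` are disjoint. -/
def Small (B : Set X) : Prop := ∀ z : Z, z ≠ 1 → ∀ x ∈ B, z • x ∉ B

/-- The union of the translates of `K`. -/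
def sat (K : Set X) : Set X := {x | ∃ z : Z, z • x ∈ K}

end Pool.Agent.ANO2.EqIdx
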