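import Pool.Agent.ANO2.EqIdx.Ball
import Pool.Agent.ANO2.EqIdx.Fin

/-!
# Equivariant index: invariance under a modification in a small set (package EQ-INV)

`G' = G` outside the saturation of the compact set `K ⊆ interior B`, `B` compact with disjoint
translates, no fixed points of `G` on the frontier of `B`.  Then `tot G' = tot G`.

Proof. Orbits of fixed points which do not meet `B` do not meet `sat K`, so they are orbits of fixed
points of both maps, with the same sign (`G' = G` near their points because `sat K` is closed: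
`Action.isClosed_sat`, `sg_congr`). The sums over the orbits which meet `B` are
`cnt (C.disp G) (C.toE '' B)` and `cnt (C.disp G') (C.toE '' B)` (`sum_small`). These are equal by
`Pool.Agent.SmoothDegree.signed_count_homotopy`, applied to `C¹` maps `E → E` which agree with
`C.disp G`, `C.disp G'` near `C.toE '' B` (`Pool.Agent.ANO.Idx.exists_ext`, `cnt_congr`, as in the
proof of `Pool.Agent.ANO.Idx.cnt_eq`): on the frontier of `C.toE '' B` (`Chart.frontier_image`) the
two maps are equal (the frontier is disjoint from `interior B ⊇ K`, and a point of `B` in `sat K` is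
in `K` because `B` is small) and not zero. Both sets `fixOrb` are finite (`finite_fixOrb`).
-/

set_option autoImplicit false
set_option linter.unusedSectionVars false

open Set Filter Topology Metric
open Pool.Agent.SmoothDegree Pool.Agent.ANO.Idx

namespace Pool.Agent.ANO2.EqIdx

variable {X E : Type} [MetricSpace X] [ProperSpace X] [NormedAddCommGroup E] [NormedSpace ℝ E]
  [FiniteDimensional ℝ E] [Nontrivial E]
variable {C : Chart X E} {Z : Type} [Group Z] [MulAction Z X]

/-- An orbit of fixed points which misses `B` consists of fixed points of both maps. -/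
private theorem miss_Inv {G G' : X → X} {K B : Set X} (hKB : K ⊆ B)
    (heq : ∀ x, x ∉ sat Z K → G' x = G x) {o : Set X} (ho : o ∈ fixOrb Z G)
    (hoB : ¬(o ∩ B).Nonempty) :
    ∃ q, q ∉ sat Z K ∧ G q = q ∧ G' q = q ∧ o = MulAction.orbit Z q := by
  obtain ⟨q, hq, rfl⟩ := ho
  have hqK : q ∉ sat Z K := by
    rintro ⟨z, hz⟩
    exact hoB ⟨z • q, MulAction.mem_orbit q z, hKB hz⟩
  have hq' : G q = q := hq
  exact ⟨q, hqK, hq', by rw [heq q hqK, hq'], rfl⟩

/-- The signed counts in `B` agree. -/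
private theorem cnt_Inv {G G' : X → X} (hG : Eqv C Z G) (hG' : Eqv C Z G')
    (hnd : NdOn C G univ) (hnd' : NdOn C G' univ) {B K : Set X} (hB : IsCompact B)
    (hs : Small Z B) (hKB : K ⊆ interior B)
    (heq : ∀ x, x ∉ sat Z K → G' x = G x) (hfr : ∀ x ∈ frontier B, G x ≠ x) :
    cnt (C.disp G') (C.toE '' B) = cnt (C.disp G) (C.toE '' B) := by
  have hU : IsCompact (C.toE '' B) := hB.image C.cont
  have hUV : C.toE '' B ⊆ C.dom := by
    rintro x ⟨q, -, rfl⟩
    exact C.mem_dom q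
  obtain ⟨h, hh, hhe⟩ := exists_ext C.isOpen_dom (C.contDiffOn_disp hG.smooth) hU hUV
  obtain ⟨h', hh', hhe'⟩ := exists_ext C.isOpen_dom (C.contDiffOn_disp hG'.smooth) hU hUV
  have hreg : Reg (C.disp G) (C.toE '' B) := by
    rintro x ⟨q, -, rfl⟩ h0
    exact hnd q (mem_univ q) (C.disp_eq_zero.1 h0)
  have hreg' : Reg (C.disp G') (C.toE '' B) := by
    rintro x ⟨q, -, rfl⟩ h0
    exact hnd' q (mem_univ q) (C.disp_eq_zero.1 h0)
  rw [← cnt_congr hhe, ← cnt_congr hhe']
  refine signed_count_homotopy hh' hh hU ?_ (hreg'.congr hhe') (hreg.congr hhe)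
  intro x hx t _
  have hxU : x ∈ C.toE '' B := hU.isClosed.frontier_subset hx
  rw [C.frontier_image hB] at hx
  obtain ⟨q, hq, rfl⟩ := hx
  have hqB : q ∈ B := hB.isClosed.frontier_subset hq
  have hqi : q ∉ interior B := by
    rw [hB.isClosed.frontier_eq] at hq
    exact hq.2
  have hqK : q ∉ sat Z K := by
    rintro ⟨z, hz⟩
    by_cases h1 : z = 1
    · subst h1
      rw [one_smul] at hz
      exact hqi (hKB hz)
    · exact hs z h1 q hqB (interior_subset (hKB hz))
  have e : h' (C.toE q) = h (C.toE q) := by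
    rw [(hhe _ hxU).eq_of_nhds, (hhe' _ hxU).eq_of_nhds, C.disp_toE, C.disp_toE, heq q hqK]
  rw [e, sub_self, smul_zero, add_zero, (hhe _ hxU).eq_of_nhds]
  exact fun h0 => hfr q hq (C.disp_eq_zero.1 h0)

theorem tot_eq_of_modify (hZ : Action C Z) {G G' : X → X} (hG : Eqv C Z G) (hG' : Eqv C Z G')
    (hnd : NdOn C G univ) (hnd' : NdOn C G' univ) {B K : Set X} (hB : IsCompact B)
    (hs : Small Z B) (hK : IsCompact K) (hKB : K ⊆ interior B)
    (heq : ∀ x, x ∉ sat Z K → G' x = G x) (hfr : ∀ x ∈ frontier B, G x ≠ x) {L : Set X}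
    (hL : IsCompact L) (hfix : ∀ q, G q = q → q ∈ sat Z L)
    (hfix' : ∀ q, G' q = q → q ∈ sat Z L) : tot C Z G' = tot C Z G := by
  have hKB' : K ⊆ B := hKB.trans interior_subset
  have hfin : (fixOrb Z G).Finite := finite_fixOrb hG hL (fun q _ => hnd q (mem_univ q)) hfix
  have hfin' : (fixOrb Z G').Finite :=
    finite_fixOrb hG' hL (fun q _ => hnd' q (mem_univ q)) hfix'
  have heq' : ∀ x, x ∉ sat Z K → G x = G' x := fun x hx => (heq x hx).symm
  have hsplit : ∀ {G₁ : X → X}, Eqv C Z G₁ → (fixOrb Z G₁).Finite →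
      tot C Z G₁ = cnt (C.disp G₁) (C.toE '' B)
        + ∑ᶠ o ∈ {o ∈ fixOrb Z G₁ | ¬(o ∩ B).Nonempty}, osg C G₁ o := by
    intro G₁ hG₁ hf
    have h1 : {o | o ∈ fixOrb Z G₁ ∧ ¬(o ∩ B).Nonempty}
        = fixOrb Z G₁ \ {o | o ∈ fixOrb Z G₁ ∧ (o ∩ B).Nonempty} := by
      ext o
      constructor
      · rintro ⟨h2, h3⟩
        exact ⟨h2, fun h4 => h3 h4.2⟩
      · rintro ⟨h2, h3⟩
        exact ⟨h2, fun h4 => h3 ⟨h2, h4⟩⟩
    rw [← sum_small hZ hG₁ hs, h1, tot]
    exact (finsum_mem_add_sdiff (fun o ho => ho.1) hf).symm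
  have hset : {o | o ∈ fixOrb Z G' ∧ ¬(o ∩ B).Nonempty}
      = {o | o ∈ fixOrb Z G ∧ ¬(o ∩ B).Nonempty} := by
    ext o
    constructor
    · rintro ⟨ho, hoB⟩
      obtain ⟨q, -, -, h2, h3⟩ := miss_Inv hKB' heq' ho hoB
      exact ⟨⟨q, h2, h3.symm⟩, hoB⟩
    · rintro ⟨ho, hoB⟩
      obtain ⟨q, -, -, h2, h3⟩ := miss_Inv hKB' heq ho hoB
      exact ⟨⟨q, h2, h3.symm⟩, hoB⟩
  rw [hsplit hG' hfin', hsplit hG hfin,
    cnt_Inv hG hG' hnd hnd' hB hs hKB heq hfr, hset]
  congr 1
  apply finsum_mem_congr rfl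
  rintro o ⟨ho, hoB⟩
  obtain ⟨q, hqK, h1, h2, rfl⟩ := miss_Inv hKB' heq ho hoB
  rw [osg_orbit hZ hG h1, osg_orbit hZ hG' h2]
  apply sg_congr
  filter_upwards [(hZ.isClosed_sat hK).isOpen_compl.mem_nhds hqK] with x hx
  exact heq x hx

end Pool.Agent.ANO2.EqIdx
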