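import Pool.Agent.ANO2.EqIdx.Inv
import Pool.Agent.ANO2.EqIdx.Ext
import Pool.Agent.ANO2.EqIdx.Sard
import Pool.Agent.ANO2.EqIdx.Near

/-!
# Equivariant index: one step of the fragmentation (package EQ-ONE)

Replace `G` by a map `G'` which is close to `G₀` on `closedBall p ρ`, equal to `G` away from the
translates of `closedBall p ρ'`, without changing `tot`.

Proof. `closedBall p ρ'` contains finitely many fixed points of `G` (`finite_fix`), so there are
`ρ < ρ₁ < ρ₂ < ρ'` such that no fixed point is on the sphere of radius `ρ₂`; `B = closedBall p ρ₂`,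
`K = closedBall p ρ₁ ⊆ ball p ρ₂ ⊆ interior B`, `frontier B ⊆ sphere p ρ₂`. Let `χ : E → [0, 1]` be
smooth, `1` near `C.toE '' closedBall p ρ` and `0` outside `C.toE '' ball p ρ₁` (an open set
containing the compact set; `Pool.Agent.SmoothDegree.exists_cutoff`). Let `ε` be as in `near_ofE`
for
the compact set `G₀ '' B` and `δ / 2`, `g : E → E` of class `C¹` with
`‖g x - C.loc G₀ x‖ < ε / 2` on `C.toE '' B` (`Pool.Agent.ANO.Idx.exists_approx`), and `v` with
`‖v‖ < ε / 2` as in `exists_reg` (`V = C.dom`, `h = C.loc G`). For `e ∈ C.toE '' B`, `e = toE x`: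
`b = ofE (g e + v)` satisfies `toE b = g e + v`, `dist b (G₀ x) < δ / 2`. Put
`m x = ofE ((1 - χ e) • toE (G x) + χ e • (g e + v))`, `e = toE x`. Then for `x ∈ B`
`C.loc m e = C.loc G e + χ e • (g e + v - C.loc G e)` (`Chart.mix_mem`), and by `Chart.ball`
`dist (m x) b ≤ dist (G x) b`, so `dist (m x) (G₀ x) ≤ dist (G x) (G₀ x) + δ`; if `x ∈ closedBall p
ρ`
then `m x = b`. `m = G` on `B \ K`. Take `G'` from `exists_extend`. The distance estimates hold for
all `x` because `G'`, `G`, `G₀` are equivariant, `Z` acts by isometries, and `G' = G` off `sat K`.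
`NdOn C G' univ`: `X` is the union of the open sets `sat (interior B)` and `(sat K)ᶜ`; on the second
`G' = G`; for the first use `NdOn.sat` and `exists_reg` (`χ ≠ 0`), `fderiv_at_zero` (`χ = 0`).
`tot`:
`tot_eq_of_modify` with `L`; a fixed point `q` of `G'` satisfies
`dist q (G₀ q) = dist (G' q) (G₀ q) ≤ c + δ ≤ c + 1`.
-/

set_option autoImplicit false
set_option linter.unusedSectionVars false

open Set Filter Topology Metric
open Pool.Agent.SmoothDegree Pool.Agent.ANO.Idx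

namespace Pool.Agent.ANO2.EqIdx

variable {X E : Type} [MetricSpace X] [ProperSpace X] [NormedAddCommGroup E] [NormedSpace ℝ E]
  [FiniteDimensional ℝ E] [Nontrivial E]
variable {C : Chart X E} {Z : Type} [Group Z] [MulAction Z X]

private theorem exists_radii_One {G : X → X} (hG : Eqv C Z G) (hnd : NdOn C G univ) (p : X)
    {ρ ρ' : ℝ} (hρ : ρ < ρ') :
    ∃ ρ₁ ρ₂ : ℝ, ρ < ρ₁ ∧ ρ₁ < ρ₂ ∧ ρ₂ < ρ' ∧ ∀ x, dist x p = ρ₂ → G x ≠ x := by
  have h1 : (closedBall p ρ' ∩ {q | G q = q}).Finite :=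
    finite_fix hG (isCompact_closedBall p ρ') fun q _ hq => hnd q (mem_univ q) hq
  have h2 : ((fun q => dist q p) '' (closedBall p ρ' ∩ {q | G q = q})).Finite := h1.image _
  obtain ⟨ρ₂, h3, h4⟩ := (Ioo_infinite hρ).exists_notMem_finite h2
  refine ⟨(ρ + ρ₂) / 2, ρ₂, by linarith [h3.1], by linarith [h3.1], h3.2, fun x hx hfx => h4 ?_⟩
  exact ⟨x, ⟨mem_closedBall.2 (hx.le.trans h3.2.le), hfx⟩, hx⟩

private theorem toE_mix_One (C : Chart X E) {G : X → X} {g : E → E} {χ : E → ℝ}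
    (hχI : ∀ x, χ x ∈ Icc (0 : ℝ) 1) {v : E} {x : X} (hd : g (C.toE x) + v ∈ C.dom) :
    C.toE (C.ofE ((1 - χ (C.toE x)) • C.toE (G x) + χ (C.toE x) • (g (C.toE x) + v)))
      = C.loc G (C.toE x) + χ (C.toE x) • (g (C.toE x) + v - C.loc G (C.toE x)) := by
  have h1 := C.mix_mem (G x) (C.ofE (g (C.toE x) + v)) (hχI (C.toE x))
  rw [C.toE_ofE hd] at h1
  rw [C.toE_ofE h1, C.loc_toE, sub_smul, one_smul, smul_sub]
  abel

private theorem ndOn_One {G G' : X → X} {B : Set X} {g : E → E} {χ : E → ℝ} {v : E}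
    (hG : Eqv C Z G) (hnd : NdOn C G univ) (hg : ContDiff ℝ 1 g) (hχ : ContDiff ℝ 1 χ)
    (hχI : ∀ x, χ x ∈ Icc (0 : ℝ) 1)
    (hv : ∀ x ∈ C.dom, χ x ≠ 0 → x - (C.loc G x + χ x • (g x + v - C.loc G x)) = 0 →
      (fderiv ℝ (fun y => y - (C.loc G y + χ y • (g y + v - C.loc G y))) x).det ≠ 0)
    (hloc : ∀ x ∈ B, C.toE (G' x)
      = C.loc G (C.toE x) + χ (C.toE x) • (g (C.toE x) + v - C.loc G (C.toE x))) :
    NdOn C G' (interior B) := by
  intro q hq hfq
  have hB : B ∈ 𝓝 q := mem_interior_iff_mem_nhds.1 hq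
  have h1 : ContinuousAt C.ofE (C.toE q) :=
    C.contOf.continuousAt (C.isOpen.mem_nhds (mem_range_self q))
  have h2 : ∀ᶠ y in 𝓝 (C.toE q), C.ofE y ∈ B := by
    have := h1.tendsto
    rw [C.left_inv] at this
    exact this.eventually hB
  have h3 : C.disp G' =ᶠ[𝓝 (C.toE q)]
      fun y => y - (C.loc G y + χ y • (g y + v - C.loc G y)) := by
    filter_upwards [h2, C.isOpen_dom.mem_nhds (C.mem_dom q)] with y hy hyd
    have h4 := hloc _ hy
    rw [C.toE_ofE hyd] at h4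
    rw [Chart.disp, ← h4]
    rfl
  rw [h3.fderiv_eq]
  by_cases h0 : χ (C.toE q) = 0
  · rw [fderiv_at_zero C.isOpen_dom hG.smooth hg.contDiffOn hχ (fun x => (hχI x).1) v
      (C.mem_dom q) h0]
    refine hnd q (mem_univ q) ?_
    have h4 := hloc q (interior_subset hq)
    rw [h0, zero_smul, add_zero, C.loc_toE, hfq] at h4
    exact (C.injective h4).symm
  · refine hv _ (C.mem_dom q) h0 ?_
    rw [← hloc q (interior_subset hq), hfq, sub_self]

theorem exists_step (hZ : Action C Z) {G G₀ : X → X} (hG : Eqv C Z G) (hnd : NdOn C G univ)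
    (hG₀ : Continuous G₀) (he : ∀ (z : Z) (x : X), G₀ (z • x) = z • G₀ x) {c : ℝ}
    (hc : ∀ x, dist (G x) (G₀ x) ≤ c) {L : Set X} (hL : IsCompact L)
    (hLc : ∀ x, dist x (G₀ x) ≤ c + 1 → x ∈ sat Z L) (p : X) {ρ ρ' : ℝ} (hρ0 : 0 < ρ) (hρ : ρ < ρ')
    (hs : Small Z (closedBall p ρ')) {δ : ℝ} (hδ : 0 < δ) (hδ1 : δ ≤ 1) :
    ∃ G' : X → X, Eqv C Z G' ∧ NdOn C G' univ ∧
      (∀ x, dist (G' x) (G₀ x) ≤ dist (G x) (G₀ x) + δ) ∧
      (∀ x ∈ closedBall p ρ, dist (G' x) (G₀ x) ≤ δ) ∧ tot C Z G' = tot C Z G := by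
  obtain ⟨ρ₁, ρ₂, hρ1, hρ2, hρ3, hsph⟩ := exists_radii_One hG hnd p hρ
  have hB : IsCompact (closedBall p ρ₂) := isCompact_closedBall p ρ₂
  have hK : IsCompact (closedBall p ρ₁) := isCompact_closedBall p ρ₁
  have hKB : closedBall p ρ₁ ⊆ interior (closedBall p ρ₂) :=
    (closedBall_subset_ball hρ2).trans ball_subset_interior_closedBall
  have hKB' : closedBall p ρ₁ ⊆ closedBall p ρ₂ := hKB.trans interior_subset
  have hsB : Small Z (closedBall p ρ₂) := hs.mono (closedBall_subset_closedBall hρ3.le)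
  -- the cutoff
  obtain ⟨χ, hχ, hχ1, hχ0, hχI⟩ := exists_cutoff (E := E)
    (Z := C.toE '' closedBall p ρ) (t := C.toE '' ball p ρ₁)
    (((isCompact_closedBall p ρ).image C.cont).isClosed) (by
      rw [C.interior_image, isOpen_ball.interior_eq]
      exact image_mono (closedBall_subset_ball hρ1))
  have hχ' : ContDiff ℝ 1 χ := hχ.of_le (by exact_mod_cast le_top)
  have hχ1' : ∀ x ∈ closedBall p ρ, χ (C.toE x) = 1 := fun x hx =>
    (eventually_nhdsSet_iff_forall.1 hχ1 _ (mem_image_of_mem _ hx)).self_of_nhds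
  have hχ0' : ∀ x, x ∉ closedBall p ρ₁ → χ (C.toE x) = 0 := by
    intro x hx
    apply hχ0
    rintro ⟨y, hy, hyx⟩
    rw [C.injective hyx] at hy
    exact hx (ball_subset_closedBall hy)
  -- the approximation
  obtain ⟨ε, hε, hnear⟩ := near_ofE C (hB.image hG₀) (half_pos hδ)
  obtain ⟨g, hg, hgε⟩ := exists_approx C.isOpen_dom (C.continuousOn_loc hG₀)
    (hB.image C.cont) (by rintro _ ⟨q, -, rfl⟩; exact C.mem_dom q) (half_pos hε)
  obtain ⟨v, hvε, hv⟩ := exists_reg C.isOpen_dom hG.smooth hg.contDiffOn hχ' (half_pos hε)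
  have hb : ∀ x ∈ closedBall p ρ₂, g (C.toE x) + v ∈ C.dom ∧
      dist (C.ofE (g (C.toE x) + v)) (G₀ x) < δ / 2 := by
    intro x hx
    refine hnear (G₀ x) (mem_image_of_mem _ hx) _ ?_
    have h1 := hgε _ (mem_image_of_mem C.toE hx)
    rw [C.loc_toE] at h1
    calc ‖g (C.toE x) + v - C.toE (G₀ x)‖ = ‖(g (C.toE x) - C.toE (G₀ x)) + v‖ := by
          congr 1; abel
      _ ≤ ‖g (C.toE x) - C.toE (G₀ x)‖ + ‖v‖ := norm_add_le _ _
      _ < ε := by linarith
  -- the local modification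
  obtain ⟨m, hmdef⟩ : ∃ m : X → X, ∀ x, m x
      = C.ofE ((1 - χ (C.toE x)) • C.toE (G x) + χ (C.toE x) • (g (C.toE x) + v)) :=
    ⟨_, fun _ => rfl⟩
  have hmE : ∀ x ∈ closedBall p ρ₂, C.toE (m x)
      = C.loc G (C.toE x) + χ (C.toE x) • (g (C.toE x) + v - C.loc G (C.toE x)) := by
    intro x hx
    rw [hmdef]
    exact toE_mix_One C hχI (hb x hx).1
  have hmG : ∀ x ∈ closedBall p ρ₂, x ∉ closedBall p ρ₁ → m x = G x := by
    intro x _ hx
    rw [hmdef, hχ0' x hx, sub_zero, one_smul, zero_smul, add_zero, C.left_inv]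
  have hmd : ∀ x ∈ closedBall p ρ₂, dist (m x) (G₀ x) ≤ dist (G x) (G₀ x) + δ := by
    intro x hx
    obtain ⟨h1, h2⟩ := hb x hx
    have h3 := C.ball (G x) (C.ofE (g (C.toE x) + v)) _ (hχI (C.toE x))
    rw [C.toE_ofE h1, ← hmdef] at h3
    have h4 := dist_triangle (m x) (C.ofE (g (C.toE x) + v)) (G₀ x)
    have h5 := dist_triangle (G x) (G₀ x) (C.ofE (g (C.toE x) + v))
    rw [dist_comm (G₀ x)] at h5
    linarith
  have hmρ : ∀ x ∈ closedBall p ρ, dist (m x) (G₀ x) ≤ δ := by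
    intro x hx
    have hx2 : x ∈ closedBall p ρ₂ := closedBall_subset_closedBall (hρ1.trans hρ2).le hx
    have h1 := (hb x hx2).2
    rw [hmdef, hχ1' x hx, sub_self, zero_smul, one_smul, zero_add]
    linarith
  have hmC : ContDiffOn ℝ 1 (C.loc m) (C.toE '' interior (closedBall p ρ₂)) := by
    have h1 : ContDiffOn ℝ 1
        (fun y => C.loc G y + χ y • (g y + v - C.loc G y)) C.dom :=
      hG.smooth.add (hχ'.contDiffOn.smul ((hg.contDiffOn.add contDiffOn_const).sub hG.smooth))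
    refine (h1.mono ?_).congr ?_
    · rintro _ ⟨q, -, rfl⟩
      exact C.mem_dom q
    · rintro _ ⟨q, hq, rfl⟩
      rw [C.loc_toE m q]
      exact hmE q (interior_subset hq)
  obtain ⟨G', hG', hG'm, hG'G⟩ := exists_extend hZ hG hsB hK hKB hmC hmG
  have hdist : ∀ x, dist (G' x) (G₀ x) ≤ dist (G x) (G₀ x) + δ := by
    intro x
    by_cases hx : x ∈ sat Z (closedBall p ρ₁)
    · obtain ⟨z, hz⟩ := hx
      have h1 := hmd (z • x) (hKB' hz)
      rw [← hG'm _ (hKB' hz), hG'.equi, hG.equi, he, hZ.dist_smul, hZ.dist_smul] at h1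
      exact h1
    · rw [hG'G x hx]
      linarith
  have hnd' : NdOn C G' univ := by
    intro q _ hfq
    by_cases hq : q ∈ sat Z (interior (closedBall p ρ₂))
    · refine NdOn.sat hZ hG' (ndOn_One hG hnd hg hχ' hχI hv ?_) q hq hfq
      intro x hx
      rw [hG'm x hx]
      exact hmE x hx
    · have hq' : q ∉ sat Z (closedBall p ρ₁) := fun h => hq (sat_mono hKB h)
      have h1 : G' =ᶠ[𝓝 q] G := by
        filter_upwards [(hZ.isClosed_sat hK).isOpen_compl.mem_nhds hq'] with y hy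
        exact hG'G y hy
      rw [(C.disp_congr h1).fderiv_eq]
      refine hnd q (mem_univ q) ?_
      rw [← hG'G q hq', hfq]
  refine ⟨G', hG', hnd', hdist, ?_, ?_⟩
  · intro x hx
    rw [hG'm x (closedBall_subset_closedBall (hρ1.trans hρ2).le hx)]
    exact hmρ x hx
  · refine tot_eq_of_modify hZ hG hG' hnd hnd' hB hsB hK hKB hG'G ?_ hL ?_ ?_
    · intro x hx
      exact hsph x (frontier_closedBall_subset_sphere hx)
    · intro q hq
      refine hLc q ?_
      have h1 := hc q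
      rw [hq] at h1
      linarith
    · intro q hq
      refine hLc q ?_
      have h1 := hdist q
      have h2 := hc q
      rw [hq] at h1
      linarith

end Pool.Agent.ANO2.EqIdx
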