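import Pool.Agent.ANO2.EqIdx.Basic

/-!
# Equivariant index: the sign of an orbit of fixed points (package EQ-SIGN)

Let `G` be equivariant, `G q = q`, `z ∈ Z`, `a = C.loc (z • ·)`, `b = C.loc (z⁻¹ • ·)`.  Near
`toE (z • q)` one has `C.loc G = a ∘ C.loc G ∘ b` (`Chart.loc_comp`), all three are differentiable
(`Action.smooth`, `Eqv.smooth` on the open set `C.dom`), and `b ∘ a = id` near `toE q`,
`a ∘ b = id` near `toE (z • q)`.  With `P = D a (toE q)`, `Q = D b (toE (z • q))`: `P Q = 1`, `Q P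
= 1`
and `D (C.loc G) (toE (z • q)) = P ∘ D (C.loc G) (toE q) ∘ Q`, so
`D (C.disp G) (toE (z • q)) = P ∘ D (C.disp G) (toE q) ∘ Q` and the determinants are equal
(`Pool.Agent.SmoothDegree.det_comp`).
-/

set_option autoImplicit false
set_option linter.unusedSectionVars false

open Set Filter Topology Metric
open Pool.Agent.SmoothDegree Pool.Agent.ANO.Idx

namespace Pool.Agent.ANO2.EqIdx

variable {X E : Type} [MetricSpace X] [NormedAddCommGroup E] [NormedSpace ℝ E]
  [FiniteDimensional ℝ E]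
variable {C : Chart X E} {Z : Type} [Group Z] [MulAction Z X]

private theorem fderiv_one_Sign {f : E → E} {x : E} (hx : x ∈ C.dom)
    (h : ∀ y ∈ C.dom, f y = y) : fderiv ℝ f x = ContinuousLinearMap.id ℝ E := by
  have h1 : f =ᶠ[𝓝 x] id := by
    filter_upwards [C.isOpen_dom.mem_nhds hx] with y hy
    exact h y hy
  rw [h1.fderiv_eq, fderiv_id]

private theorem smul_diff_Sign (hZ : Action C Z) (z : Z) {x : E} (hx : x ∈ C.dom) :
    DifferentiableAt ℝ (C.loc fun p => z • p) x :=
  ((hZ.smooth z).contDiffAt (C.isOpen_dom.mem_nhds hx)).differentiableAt one_ne_zero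

private theorem loc_inv_Sign {w z : Z} (hwz : w * z = 1) {x : E} (hx : x ∈ C.dom) :
    C.loc (fun p => w • p) (C.loc (fun p => z • p) x) = x := by
  obtain ⟨p, rfl⟩ := hx
  rw [Chart.loc_toE, Chart.loc_toE, smul_smul, hwz, one_smul]

theorem det_smul (hZ : Action C Z) {G : X → X} (hG : Eqv C Z G) {q : X} (hq : G q = q) (z : Z) :
    (fderiv ℝ (C.disp G) (C.toE (z • q))).det = (fderiv ℝ (C.disp G) (C.toE q)).det := by
  set a : E → E := C.loc fun p => z • p with ha
  set b : E → E := C.loc fun p => z⁻¹ • p with hb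
  set g : E → E := C.loc G with hg
  have hq0 : C.toE q ∈ C.dom := C.mem_dom q
  have hq1 : C.toE (z • q) ∈ C.dom := C.mem_dom _
  have da : DifferentiableAt ℝ a (C.toE q) := smul_diff_Sign hZ z hq0
  have db : DifferentiableAt ℝ b (C.toE (z • q)) := smul_diff_Sign hZ z⁻¹ hq1
  have dg : ∀ x ∈ C.dom, DifferentiableAt ℝ g x := fun x hx =>
    (hG.smooth.contDiffAt (C.isOpen_dom.mem_nhds hx)).differentiableAt one_ne_zero
  have hbq : b (C.toE (z • q)) = C.toE q := by
    rw [hb, Chart.loc_toE, inv_smul_smul]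
  have hgq : g (C.toE q) = C.toE q := by rw [hg, Chart.loc_toE, hq]
  have haq : a (C.toE q) = C.toE (z • q) := by rw [ha, Chart.loc_toE]
  -- the identity `g = a ∘ g ∘ b`
  have hcomp : g = a ∘ (g ∘ b) := by
    funext x
    have h1 : G = (fun p => z • p) ∘ (G ∘ fun p => z⁻¹ • p) := by
      funext p
      simp only [Function.comp_apply, hG.equi, smul_smul, mul_inv_cancel, one_smul]
    calc g x = C.loc ((fun p => z • p) ∘ (G ∘ fun p => z⁻¹ • p)) x := by rw [← h1]
      _ = a (g (b x)) := by rw [Chart.loc_comp, Chart.loc_comp]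
  have dgb : DifferentiableAt ℝ (g ∘ b) (C.toE (z • q)) := by
    refine DifferentiableAt.comp _ ?_ db
    rw [hbq]
    exact dg _ hq0
  have hD : fderiv ℝ g (C.toE (z • q)) = (fderiv ℝ a (C.toE q)).comp
      ((fderiv ℝ g (C.toE q)).comp (fderiv ℝ b (C.toE (z • q)))) := by
    conv_lhs => rw [hcomp]
    have e1 : (g ∘ b) (C.toE (z • q)) = C.toE q := by
      rw [Function.comp_apply, hbq, hgq]
    rw [fderiv_comp _ (by rw [e1]; exact da) dgb, e1,
      fderiv_comp _ (by rw [hbq]; exact dg _ hq0) db, hbq]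
  have hPQ : (fderiv ℝ a (C.toE q)).comp (fderiv ℝ b (C.toE (z • q))) =
      ContinuousLinearMap.id ℝ E := by
    have h1 := fderiv_comp (C.toE (z • q)) (g := a) (f := b) (by rw [hbq]; exact da) db
    rw [hbq] at h1
    rw [← h1]
    exact fderiv_one_Sign hq1 fun y hy => loc_inv_Sign (mul_inv_cancel z) hy
  have hdet : (fderiv ℝ a (C.toE q)).det * (fderiv ℝ b (C.toE (z • q))).det = 1 := by
    rw [← Pool.Agent.SmoothDegree.det_comp, hPQ, ContinuousLinearMap.det,
      ContinuousLinearMap.coe_id, LinearMap.det_id]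
  have hdisp : ∀ x ∈ C.dom, fderiv ℝ (C.disp G) x =
      ContinuousLinearMap.id ℝ E - fderiv ℝ g x := by
    intro x hx
    have h1 : C.disp G = fun y => y - g y := rfl
    rw [h1, fderiv_fun_sub differentiableAt_fun_id (dg x hx), fderiv_fun_id]
  have hfin : ContinuousLinearMap.id ℝ E - fderiv ℝ g (C.toE (z • q)) =
      (fderiv ℝ a (C.toE q)).comp ((ContinuousLinearMap.id ℝ E - fderiv ℝ g (C.toE q)).comp
        (fderiv ℝ b (C.toE (z • q)))) := by
    rw [hD, ContinuousLinearMap.sub_comp, ContinuousLinearMap.comp_sub,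
      ContinuousLinearMap.id_comp, hPQ]
  rw [hdisp _ hq1, hdisp _ hq0, hfin, Pool.Agent.SmoothDegree.det_comp,
    Pool.Agent.SmoothDegree.det_comp]
  linear_combination (ContinuousLinearMap.id ℝ E - fderiv ℝ g (C.toE q)).det * hdet

theorem sg_smul (hZ : Action C Z) {G : X → X} (hG : Eqv C Z G) {q : X} (hq : G q = q) (z : Z) :
    sg C G (z • q) = sg C G q := by
  unfold sg jacobianSign
  rw [det_smul hZ hG hq z]

theorem osg_orbit (hZ : Action C Z) {G : X → X} (hG : Eqv C Z G) {q : X} (hq : G q = q) :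
    osg C G (MulAction.orbit Z q) = sg C G q := by
  have h : ∃ p ∈ MulAction.orbit Z q, G p = p := ⟨q, MulAction.mem_orbit_self q, hq⟩
  rw [osg, dif_pos h]
  obtain ⟨z, hz⟩ := h.choose_spec.1
  have hz' : z • q = h.choose := hz
  rw [← hz']
  exact sg_smul hZ hG hq z

theorem sg_congr {G G' : X → X} {q : X} (h : G' =ᶠ[𝓝 q] G) : sg C G' q = sg C G q := by
  unfold sg jacobianSign
  rw [(C.disp_congr h).fderiv_eq]

theorem NdOn.sat (hZ : Action C Z) {G : X → X} (hG : Eqv C Z G) {s : Set X} (h : NdOn C G s) :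
    NdOn C G (sat Z s) := by
  rintro q ⟨z, hz⟩ hq
  have h1 : G (z • q) = z • q := by rw [hG.equi, hq]
  rw [← det_smul hZ hG hq z]
  exact h _ hz h1

theorem mem_fixOrb {G : X → X} {o : Set X} (hG : ∀ (z : Z) (x : X), G (z • x) = z • G x)
    (ho : o ∈ fixOrb Z G) {q : X} (hq : q ∈ o) : G q = q ∧ o = MulAction.orbit Z q := by
  obtain ⟨p, hp, rfl⟩ := ho
  have hp' : G p = p := hp
  obtain ⟨z, rfl⟩ := hq
  refine ⟨?_, ?_⟩
  · change G (z • p) = z • p
    rw [hG, hp']
  · exact (MulAction.orbit_eq_iff.2 ⟨z, rfl⟩).symm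

end Pool.Agent.ANO2.EqIdx
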